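import Mathlib
import Pool.Agent.Y918.GB.Four

/-!
# Four exponentials for random elements of groups of rational numbers

Let `V` be a rational space of real numbers of dimension at most `m`, for instance `0` or the space
generated by the logarithms of `m` given rational numbers.  For every `j ≤ n` let
`q_{j,1}, …, q_{j,k}` be multiplicatively independent positive rational numbers (for instance distinct
primes; for different `j` they may be the same), and let `ζ_j` be an arbitrary real number, for instance
`0`.  For a matrix `a = (a_{j,r})` with entries in a finite set `A` of rational numbers let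

  `l_j = ζ_j + ∑_r a_{j,r} log q_{j,r}`,

so `l_j` is the logarithm of the random product `∏_r q_{j,r} ^ a_{j,r}` if `ζ_j = 0`.  For all but
`C |A|^(n k - δ k)` of the `|A|^(n k)` matrices `a` the space `V' = V + ℚ l_1 + ⋯ + ℚ l_n` has
dimension `dim V + n`, and every `2 × 2` matrix with entries in `V'`, not all in `V`, with
`ℚ`-independent rows and `ℚ`-independent columns, is nonsingular.  Here `k ≥ k₀`, and `k₀`, `C` and
`δ > 0` depend only on `n` and `m`, not on `V`, `q`, `ζ` and `A`.  For `V = 0` this is the four
exponentials conjecture for the group of all the rational numbers whose logarithm is a rational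
combination of the logarithms of `n` random products.

The proof.  By Baker's theorem the logarithms `log q_{j,r}` are linearly independent over the field of
algebraic numbers.  If `l_j` satisfies no relation of degree at most two over the space generated over
the field of algebraic numbers by `1`, `V'` and the products of elements of `V'`, where
`V' = V + ℚ l_1 + ⋯ + ℚ l_(j-1)`, then there are no new singular matrices in `V' + ℚ l_j`
(`Pool.Agent.W245.PB.RelFour.extend`, from the starting library).  By the additive grid theorem over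
the field of algebraic numbers the parameters of the exceptional `l_j` contain no nondegenerate grid,
and an iterated Cauchy-Schwarz inequality shows that they are exponentially rare
(`Pool.Agent.Y918.RP.stepA`).
-/

set_option autoImplicit false

namespace Pool.Agent.Results.MP_bbc1fa_nt.RandomProducts

open Module

/-- The space `V + ℚ l_1 + ⋯ + ℚ l_n`. -/
noncomputable def adjoin (V : Submodule ℚ ℝ) {n : ℕ} (l : Fin n → ℝ) : Submodule ℚ ℝ :=
  V ⊔ Submodule.span ℚ (Set.range l)

/-- The numbers `l_j = ζ_j + ∑_r a_{j,r} log q_{j,r}`. -/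
noncomputable def logs {n k : ℕ} (ζ : Fin n → ℝ) (q : Fin n → Fin k → ℚ) (a : Fin n → Fin k → ℚ)
    (j : Fin n) : ℝ := ζ j + ∑ r : Fin k, (a j r : ℝ) * Real.log (q j r)

/-- Every `2 × 2` matrix with entries in `V'`, not all in `V`, with `ℚ`-independent rows and
`ℚ`-independent columns, is nonsingular. -/
def FourExponentials (V V' : Submodule ℚ ℝ) : Prop :=
  ∀ M : Matrix (Fin 2) (Fin 2) ℝ, (∀ i j, M i j ∈ V') → (∃ i j, M i j ∉ V) →
    LinearIndependent ℚ (fun i : Fin 2 => fun j : Fin 2 => M i j) →
    LinearIndependent ℚ (fun j : Fin 2 => fun i : Fin 2 => M i j) → M.det ≠ 0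

open Classical in
/-- **Main result.** -/
theorem result (n m : ℕ) : ∃ (k₀ C : ℕ) (δ : ℝ), 0 < δ ∧ ∀ k ≥ k₀, ∀ q : Fin n → Fin k → ℚ,
    (∀ j r, 0 < q j r) → (∀ j, LinearIndependent ℚ (fun r => Real.log (q j r))) →
    ∀ A : Finset ℚ, A.Nonempty → ∀ V : Submodule ℚ ℝ, Module.Finite ℚ V → finrank ℚ V ≤ m →
    ∀ ζ : Fin n → ℝ,
    (((Fintype.piFinset fun _ : Fin n => Fintype.piFinset fun _ : Fin k => A).filter
      (fun a : Fin n → Fin k → ℚ => ¬ (finrank ℚ (adjoin V (logs ζ q a)) = finrank ℚ V + n ∧
        FourExponentials V (adjoin V (logs ζ q a))))).card : ℝ) ≤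
      C * (A.card : ℝ) ^ ((n * k : ℝ) - δ * k) := by
  obtain ⟨k₀, C, δ, hδ, h⟩ := Pool.Agent.Y918.GB.four n m
  refine ⟨k₀, C, δ, hδ, fun k hk q hq hli A hA V hV hVm ζ => ?_⟩
  have hq' : ∀ j r, (0 : ℝ) < q j r := fun j r => by exact_mod_cast hq j r
  let rc := Pool.Agent.W245.PB.rc
  have hrc : Function.Injective rc := Pool.Agent.W245.PB.rc_injective
  have hlic : ∀ j, LinearIndependent ℚ (fun r => ((Real.log (q j r) : ℝ) : ℂ)) := fun j =>
    (hli j).map' rc (LinearMap.ker_eq_bot.2 hrc)
  have halg : ∀ j r, IsAlgebraic ℚ (Complex.exp ((Real.log (q j r) : ℝ) : ℂ)) := by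
    intro j r
    rw [← Complex.ofReal_exp, Real.exp_log (hq' j r)]
    have h1 : (((q j r : ℚ) : ℝ) : ℂ) = algebraMap ℚ ℂ (q j r) := by
      rw [eq_ratCast]
      push_cast
      rfl
    rw [h1]
    exact isAlgebraic_algebraMap _
  refine le_trans ?_ (h k hk (fun j r => ((Real.log (q j r) : ℝ) : ℂ)) hlic halg A hA ℚ
    (V.map rc) inferInstance ((Submodule.finrank_map_le _ _).trans hVm) (fun j => (ζ j : ℂ)))
  apply Nat.cast_le.2
  apply Finset.card_le_card
  intro a ha
  rw [Finset.mem_filter] at ha ⊢
  refine ⟨ha.1, fun hgood => ha.2 ?_⟩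
  have e1 : (fun j => (ζ j : ℂ) + ∑ r, (a j r : ℂ) * ((Real.log (q j r) : ℝ) : ℂ)) =
      fun j => ((logs ζ q a j : ℝ) : ℂ) := by
    funext j
    unfold logs
    push_cast
    rfl
  rw [e1, ← Pool.Agent.W245.PB.map_sup_span_range] at hgood
  obtain ⟨h1, h2⟩ := hgood
  constructor
  · have h3 : finrank ℚ ((adjoin V (logs ζ q a)).map rc) = finrank ℚ (adjoin V (logs ζ q a)) :=
      (LinearEquiv.finrank_eq (Submodule.equivMapOfInjective rc hrc _)).symm
    have h4 : finrank ℚ (V.map rc) = finrank ℚ V :=
      (LinearEquiv.finrank_eq (Submodule.equivMapOfInjective rc hrc V)).symm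
    rw [← h3, ← h4]
    exact h2
  · intro M hM hV hrow hcol
    exact (Pool.Agent.W245.PB.RelFour.real h1).det_ne_zero M hM hrow hcol hV

end Pool.Agent.Results.MP_bbc1fa_nt.RandomProducts
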