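import Pool.Agent.Y921.FE.Win
import Pool.Agent.Y921.FE.Mat

/-!
# The four exponentials conjecture for groups generated by rational numbers of a short window

Let `V` be a finite dimensional `ℚ`-space of real numbers (for instance `0`, or the logarithms of the rational numbers
composed of given primes). In the window of the rational numbers `t + β`, `β ≠ 0` of height at most `H`, `t ≥ (H + 2) ^ E`
(for instance the integers between `t` and `t + t ^ (1 / (E + 1))`), after deleting at most `dim V + 1` numbers any `r`
distinct numbers have logarithms which are `ℚ`-linearly independent modulo `V`, and every real matrix with `ℚ`-linearly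
independent rows, `ℚ`-linearly independent columns, entries which are rational linear combinations (of any height) of
elements of `V` and these `r` logarithms, not all in `V`, is nonsingular. The exponent `E` depends only on `r` and `dim V`.

The proof uses helper916's window theorem (`Pool.Agent.Y916.t_window`, G-functions with unknown constants).
-/

set_option autoImplicit false

open Module

namespace Pool.Agent.Results.MP_bbc1fa_nt.WindowGroups

theorem result (r m : ℕ) : ∃ E : ℕ, ∀ H t : ℕ, (H + 2) ^ E ≤ t →
    ∀ V : Submodule ℚ ℝ, Module.Finite ℚ V → finrank ℚ V ≤ m →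
    ∃ S : Finset ℚ, S.card ≤ m + 1 ∧ ∀ β : Fin r → ℚ, Function.Injective β →
      (∀ i, β i ∉ S ∧ β i ≠ 0 ∧ |(β i).num| ≤ H ∧ (β i).den ≤ H) →
      finrank ℚ (V ⊔ Submodule.span ℚ (Set.range fun i => Real.log (t + β i)) : Submodule ℚ ℝ) = finrank ℚ V + r ∧
      ∀ M : Matrix (Fin 2) (Fin 2) ℝ,
        (∀ i j, M i j ∈ V ⊔ Submodule.span ℚ (Set.range fun i => Real.log (t + β i))) →
        (∃ i j, M i j ∉ V) →
        LinearIndependent ℚ (fun i : Fin 2 => fun j : Fin 2 => M i j) →
        LinearIndependent ℚ (fun j : Fin 2 => fun i : Fin 2 => M i j) → M.det ≠ 0 := by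
  obtain ⟨E, hE⟩ := Pool.Agent.Y921.FE.window_rat r m
  refine ⟨E, fun H t ht V hV hVm => ?_⟩
  obtain ⟨S, hS, h⟩ := hE H t ht V hV hVm
  refine ⟨S, hS, fun β hinj hβ => ?_⟩
  have hg := h β hinj hβ
  refine ⟨?_, fun M hM hne hrow hcol => hg.det_ne_zero M hM hne hrow hcol⟩
  rw [hg.1, Fintype.card_fin]

end Pool.Agent.Results.MP_bbc1fa_nt.WindowGroups
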